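import Pool.Agent.H86.DB.Targets

/-!
# The colength of the powers of an ideal (row MON)
-/

set_option autoImplicit false

open Module MvPolynomial

namespace Pool.Agent.H3.DB

open Pool.Agent.H86.DB

universe u

section mon

variable {k : Type u} [Field k] {m : ℕ} (mo : MonomialOrder (Fin m))

open scoped MonomialOrder

theorem red {f g : MvPolynomial (Fin m) k} (hd : mo.degree g = mo.degree f)
    (hl : mo.leadingCoeff g = mo.leadingCoeff f) :
    f - g = 0 ∨ mo.toSyn (mo.degree (f - g)) < mo.toSyn (mo.degree f) := by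
  by_cases h0 : f - g = 0
  · exact Or.inl h0
  · right
    have h1 := mo.degree_sub_le (f := f) (g := g)
    rw [hd, sup_idem] at h1
    refine lt_of_le_of_ne h1 fun h2 => ?_
    have h3 : mo.degree (f - g) = mo.degree f := mo.toSyn.injective h2
    have h4 := mo.degree_mem_support h0
    rw [h3, MvPolynomial.mem_support_iff, MvPolynomial.coeff_sub] at h4
    apply h4
    have h5 : coeff (mo.degree f) g = coeff (mo.degree f) f := by
      have h6 : coeff (mo.degree g) g = coeff (mo.degree f) f := hl
      rwa [hd] at h6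
    rw [h5, sub_self]

/-- the standard exponents -/
abbrev Bs (J : Ideal (MvPolynomial (Fin m) k)) : Type :=
  {a : Fin m →₀ ℕ // ∀ f ∈ J, f ≠ 0 → mo.degree f ≠ a}

/-- the classes of the standard monomials -/
noncomputable def bs (J : Ideal (MvPolynomial (Fin m) k)) (a : Bs mo J) :
    MvPolynomial (Fin m) k ⧸ J := Ideal.Quotient.mkₐ k J (monomial a.1 1)

theorem span_std (J : Ideal (MvPolynomial (Fin m) k)) (f : MvPolynomial (Fin m) k) :
    Ideal.Quotient.mkₐ k J f ∈ Submodule.span k (Set.range (bs mo J)) := by
  have key : ∀ (d : mo.syn) (f : MvPolynomial (Fin m) k), mo.toSyn (mo.degree f) = d →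
      Ideal.Quotient.mkₐ k J f ∈ Submodule.span k (Set.range (bs mo J)) := by
    intro d
    induction d using WellFoundedLT.induction with
    | ind d ih =>
      intro f hf
      by_cases hf0 : f = 0
      · rw [hf0, map_zero]
        exact Submodule.zero_mem _
      have hc : mo.leadingCoeff f ≠ 0 := mo.leadingCoeff_ne_zero_iff.2 hf0
      by_cases ha : ∀ g ∈ J, g ≠ 0 → mo.degree g ≠ mo.degree f
      · set g : MvPolynomial (Fin m) k := monomial (mo.degree f) (mo.leadingCoeff f) with hg
        have hd : mo.degree g = mo.degree f := by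
          classical
          rw [hg, mo.degree_monomial, if_neg hc]
        have hl : mo.leadingCoeff g = mo.leadingCoeff f := by
          rw [hg, mo.leadingCoeff_monomial]
        have h1 : Ideal.Quotient.mkₐ k J g ∈ Submodule.span k (Set.range (bs mo J)) := by
          have h2 : g = mo.leadingCoeff f • monomial (mo.degree f) (1 : k) := by
            rw [hg, MvPolynomial.smul_monomial, smul_eq_mul, mul_one]
          rw [h2, map_smul]
          exact Submodule.smul_mem _ _ (Submodule.subset_span ⟨⟨mo.degree f, ha⟩, rfl⟩)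
        have h3 : Ideal.Quotient.mkₐ k J (f - g) ∈ Submodule.span k (Set.range (bs mo J)) := by
          rcases red mo hd hl with h | h
          · rw [h, map_zero]
            exact Submodule.zero_mem _
          · exact ih _ (by rw [← hf]; exact h) _ rfl
        have h4 : f = (f - g) + g := by ring
        rw [h4, map_add]
        exact Submodule.add_mem _ h3 h1
      · push Not at ha
        obtain ⟨g, hgJ, hg0, hgd⟩ := ha
        have hlg : mo.leadingCoeff g ≠ 0 := mo.leadingCoeff_ne_zero_iff.2 hg0
        set r : k := mo.leadingCoeff f / mo.leadingCoeff g with hr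
        have hr0 : r ≠ 0 := div_ne_zero hc hlg
        have hd : mo.degree (C r * g) = mo.degree f := by
          rw [mo.degree_mul (by rwa [Ne, MvPolynomial.C_eq_zero]) hg0, mo.degree_C, zero_add, hgd]
        have hl : mo.leadingCoeff (C r * g) = mo.leadingCoeff f := by
          have h5 : mo.leadingCoeff (C r * g) = coeff (mo.degree (C r * g)) (C r * g) := rfl
          rw [h5, hd, MvPolynomial.coeff_C_mul, ← hgd]
          have h6 : coeff (mo.degree g) g = mo.leadingCoeff g := rfl
          rw [h6, hr, div_mul_cancel₀ _ hlg]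
        have h3 : Ideal.Quotient.mkₐ k J (f - C r * g) ∈
            Submodule.span k (Set.range (bs mo J)) := by
          rcases red mo hd hl with h | h
          · rw [h, map_zero]
            exact Submodule.zero_mem _
          · exact ih _ (by rw [← hf]; exact h) _ rfl
        have h4 : Ideal.Quotient.mkₐ k J f = Ideal.Quotient.mkₐ k J (f - C r * g) := by
          change Ideal.Quotient.mk J f = Ideal.Quotient.mk J (f - C r * g)
          rw [Ideal.Quotient.eq]
          have h5 : f - (f - C r * g) = C r * g := by ring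
          rw [h5]
          exact Ideal.mul_mem_left _ _ hgJ
        rw [h4]
        exact h3
  exact key _ f rfl

theorem li_std (J : Ideal (MvPolynomial (Fin m) k)) : LinearIndependent k (bs mo J) := by
  classical
  rw [linearIndependent_iff']
  intro s g hg a ha
  set p : MvPolynomial (Fin m) k := ∑ b ∈ s, monomial b.1 (g b) with hp
  have h1 : Ideal.Quotient.mkₐ k J p = 0 := by
    rw [← hg, hp, map_sum]
    refine Finset.sum_congr rfl fun b _ => ?_
    have h2 : monomial b.1 (g b) = g b • monomial b.1 (1 : k) := by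
      rw [MvPolynomial.smul_monomial, smul_eq_mul, mul_one]
    rw [h2, map_smul]
    rfl
  have hpJ : p ∈ J := Ideal.Quotient.eq_zero_iff_mem.1 h1
  have hcoef : ∀ b : Bs mo J, coeff b.1 p = if b ∈ s then g b else 0 := by
    intro b
    rw [hp, MvPolynomial.coeff_sum]
    simp only [MvPolynomial.coeff_monomial]
    rw [← Finset.sum_ite_eq' s b g]
    refine Finset.sum_congr rfl fun b' _ => ?_
    by_cases h : b' = b
    · simp [h]
    · rw [if_neg h, if_neg fun h' => h (Subtype.ext h')]
  have hp0 : p = 0 := by
    by_contra hne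
    have h3 := mo.degree_mem_support hne
    rw [hp] at h3
    obtain ⟨b, hb, hb'⟩ := Finset.mem_biUnion.1 (MvPolynomial.support_sum h3)
    have h4 : mo.degree p = b.1 := by
      have h5 := MvPolynomial.support_monomial_subset hb'
      rw [Finset.mem_singleton] at h5
      exact h5
    exact b.2 p hpJ hne h4
  have h6 := hcoef a
  rw [hp0, MvPolynomial.coeff_zero, if_pos ha] at h6
  exact h6.symm

/-- the basis of the standard monomials -/
noncomputable def bas (J : Ideal (MvPolynomial (Fin m) k)) :
    Basis (Bs mo J) k (MvPolynomial (Fin m) k ⧸ J) :=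
  Basis.mk (li_std mo J) (by
    intro x _
    obtain ⟨f, rfl⟩ := Ideal.Quotient.mkₐ_surjective k J x
    exact span_std mo J f)

theorem div_std (I : Ideal (MvPolynomial (Fin m) k)) {n : ℕ} (a : Bs mo (I ^ n)) :
    ∀ f ∈ I, f ≠ 0 → mo.degree f ≠ Finsupp.equivFunOnFinite.symm (fun i => a.1 i / n) := by
  intro f hf hf0 hd
  set b : Fin m →₀ ℕ := Finsupp.equivFunOnFinite.symm fun i => a.1 i / n with hb
  have hbi : ∀ i, b i = a.1 i / n := fun i => rfl
  have hle : n • b ≤ a.1 := by
    intro i
    rw [Finsupp.smul_apply, smul_eq_mul, hbi]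
    exact Nat.mul_div_le _ _
  have hp : f ^ n ∈ I ^ n := Ideal.pow_mem_pow hf n
  have hq : monomial (a.1 - n • b) (1 : k) * f ^ n ∈ I ^ n := Ideal.mul_mem_left _ _ hp
  have hm0 : monomial (a.1 - n • b) (1 : k) ≠ 0 := by
    rw [Ne, MvPolynomial.monomial_eq_zero]
    exact one_ne_zero
  have hfn : f ^ n ≠ 0 := pow_ne_zero n hf0
  refine a.2 _ hq (mul_ne_zero hm0 hfn) ?_
  classical
  rw [mo.degree_mul hm0 hfn, mo.degree_monomial, if_neg one_ne_zero, mo.degree_pow, hd]
  exact tsub_add_cancel_of_le hle

/-- the map on the standard exponents -/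
noncomputable def dm (I : Ideal (MvPolynomial (Fin m) k)) {n : ℕ} (hn : 0 < n)
    (a : Bs mo (I ^ n)) : Bs mo I × (Fin m → Fin n) :=
  (⟨Finsupp.equivFunOnFinite.symm fun i => a.1 i / n, div_std mo I a⟩,
    fun i => ⟨a.1 i % n, Nat.mod_lt _ hn⟩)

theorem dm_inj (I : Ideal (MvPolynomial (Fin m) k)) {n : ℕ} (hn : 0 < n) :
    Function.Injective (dm mo I hn) := by
  intro a a' h
  apply Subtype.ext
  ext i
  have h1 : Finsupp.equivFunOnFinite.symm (fun i => a.1 i / n) =
      Finsupp.equivFunOnFinite.symm (fun i => a'.1 i / n) := congrArg (fun x => x.1.1) h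
  have h2 : a.1 i / n = a'.1 i / n := congrArg (fun x : Fin m →₀ ℕ => x i) h1
  have h3 : (⟨a.1 i % n, Nat.mod_lt _ hn⟩ : Fin n) = ⟨a'.1 i % n, Nat.mod_lt _ hn⟩ :=
    congrFun (congrArg Prod.snd h) i
  have h4 : a.1 i % n = a'.1 i % n := congrArg Fin.val h3
  rw [← Nat.div_add_mod (a.1 i) n, ← Nat.div_add_mod (a'.1 i) n, h2, h4]

end mon

theorem pf_MON : T_MON.{u} := by
  intro k _ m I n hI
  rcases Nat.eq_zero_or_pos n with hn | hn
  · subst hn
    have h1 : Subsingleton (MvPolynomial (Fin m) k ⧸ I ^ 0) := by
      rw [pow_zero, Ideal.one_eq_top]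
      exact Ideal.Quotient.subsingleton_iff.2 rfl
    refine ⟨inferInstance, ?_⟩
    rw [finrank_zero_of_subsingleton]
    exact Nat.zero_le _
  · set mo : MonomialOrder (Fin m) := MonomialOrder.lex with hmo
    have hfin : Finite (Bs mo I) := Module.Finite.finite_basis (bas mo I)
    have hfin2 : Finite (Bs mo (I ^ n)) := Finite.of_injective _ (dm_inj mo I hn)
    refine ⟨Module.Finite.of_basis (bas mo (I ^ n)), ?_⟩
    rw [finrank_eq_nat_card_basis (bas mo (I ^ n)), finrank_eq_nat_card_basis (bas mo I)]
    refine (Nat.card_le_card_of_injective _ (dm_inj mo I hn)).trans (le_of_eq ?_)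
    rw [Nat.card_prod, Nat.card_fun, Nat.card_fin, Nat.card_fin, mul_comm]

end Pool.Agent.H3.DB
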