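import Pool.Agent.H86.DB.Targets

/-!
# A linear form which is a nonzerodivisor in high degrees (row STEP)
-/

set_option autoImplicit false

open Module MvPolynomial

namespace Pool.Agent.H3.DB

open Pool.Agent.H86.DB

universe u

section step

variable {k : Type u} [Field k] {r : ℕ}

theorem lin_add (c c' : Fin r → k) : lin (c + c') = lin c + lin c' := by
  unfold lin
  rw [← Finset.sum_add_distrib]
  refine Finset.sum_congr rfl fun i _ => ?_
  rw [Pi.add_apply, C_add, add_mul]

theorem lin_smul (a : k) (c : Fin r → k) : lin (a • c) = C a * lin c := by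
  unfold lin
  rw [Finset.mul_sum]
  refine Finset.sum_congr rfl fun i _ => ?_
  rw [Pi.smul_apply, smul_eq_mul, C_mul, mul_assoc]

theorem lin_single (i : Fin r) : lin (Pi.single i (1 : k)) = X i := by
  classical
  unfold lin
  rw [Finset.sum_eq_single i]
  · rw [Pi.single_eq_same, C_1, one_mul]
  · intro j _ hj
    rw [Pi.single_eq_of_ne hj, C_0, zero_mul]
  · intro h
    exact absurd (Finset.mem_univ i) h

/-- the linear forms in an ideal -/
def LV (P : Ideal (MvPolynomial (Fin r) k)) : Subspace k (Fin r → k) where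
  carrier := {c | lin c ∈ P}
  add_mem' := by
    intro a b ha hb
    rw [Set.mem_ofPred_eq, lin_add]
    exact P.add_mem ha hb
  zero_mem' := by
    have h : lin (0 : Fin r → k) = 0 := by
      unfold lin
      exact Finset.sum_eq_zero fun i _ => by rw [Pi.zero_apply, C_0, zero_mul]
    rw [Set.mem_ofPred_eq, h]
    exact P.zero_mem
  smul_mem' := by
    intro a c hc
    rw [Set.mem_ofPred_eq, lin_smul]
    exact P.mul_mem_left _ hc

/-- a linear form outside of the relevant associated primes -/
theorem exists_lin [Infinite k] (J : Ideal (MvPolynomial (Fin r) k)) : ∃ c : Fin r → k,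
    ∀ P ∈ associatedPrimes (MvPolynomial (Fin r) k) (MvPolynomial (Fin r) k ⧸ J),
      lin c ∈ P → ∀ i, X i ∈ P := by
  have hfin : (associatedPrimes (MvPolynomial (Fin r) k) (MvPolynomial (Fin r) k ⧸ J)).Finite :=
    associatedPrimes.finite _ _
  have : Finite {P : Ideal (MvPolynomial (Fin r) k) //
      P ∈ associatedPrimes (MvPolynomial (Fin r) k) (MvPolynomial (Fin r) k ⧸ J) ∧
        ∃ i, X i ∉ P} := (hfin.subset (fun P hP => hP.1 : {P | P ∈ associatedPrimes
          (MvPolynomial (Fin r) k) (MvPolynomial (Fin r) k ⧸ J) ∧ ∃ i, X i ∉ P} ⊆ _)).to_subtype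
  by_contra hcon
  push Not at hcon
  obtain ⟨P, hP⟩ := Subspace.exists_eq_top_of_iUnion_eq_univ
    (p := fun P : {P : Ideal (MvPolynomial (Fin r) k) //
      P ∈ associatedPrimes (MvPolynomial (Fin r) k) (MvPolynomial (Fin r) k ⧸ J) ∧
        ∃ i, X i ∉ P} => LV P.1) (by
    rw [Set.eq_univ_iff_forall]
    intro c
    obtain ⟨P, hP1, hP2, hP3⟩ := hcon c
    exact Set.mem_iUnion.2 ⟨⟨P, hP1, hP3⟩, hP2⟩)
  obtain ⟨i, hi⟩ := P.2.2
  apply hi
  have h1 : Pi.single i (1 : k) ∈ LV P.1 := by
    rw [hP]
    exact Submodule.mem_top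
  have h2 : lin (Pi.single i (1 : k)) ∈ P.1 := h1
  rwa [lin_single] at h2

/-- a power of each variable kills the elements killed by the linear form -/
theorem exists_pow (J : Ideal (MvPolynomial (Fin r) k)) (c : Fin r → k)
    (hc : ∀ P ∈ associatedPrimes (MvPolynomial (Fin r) k) (MvPolynomial (Fin r) k ⧸ J),
      lin c ∈ P → ∀ i, X i ∈ P) (i : Fin r) :
    ∃ s : ℕ, ∀ z : MvPolynomial (Fin r) k, lin c * z ∈ J → X i ^ s * z ∈ J := by
  -- the chain of ideals
  let K : ℕ →o Ideal (MvPolynomial (Fin r) k) :=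
    { toFun := fun s =>
        { carrier := {z | lin c * z ∈ J ∧ X i ^ s * z ∈ J}
          add_mem' := by
            rintro a b ⟨h1, h2⟩ ⟨h3, h4⟩
            refine ⟨?_, ?_⟩
            · rw [mul_add]; exact J.add_mem h1 h3
            · rw [mul_add]; exact J.add_mem h2 h4
          zero_mem' := ⟨by rw [mul_zero]; exact J.zero_mem, by rw [mul_zero]; exact J.zero_mem⟩
          smul_mem' := by
            rintro a z ⟨h1, h2⟩
            refine ⟨?_, ?_⟩
            · rw [smul_eq_mul, mul_left_comm]; exact J.mul_mem_left _ h1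
            · rw [smul_eq_mul, mul_left_comm]; exact J.mul_mem_left _ h2 }
      monotone' := by
        intro a b hab z hz
        refine ⟨hz.1, ?_⟩
        obtain ⟨d, rfl⟩ := Nat.exists_eq_add_of_le hab
        rw [pow_add, mul_comm (X i ^ a), mul_assoc]
        exact J.mul_mem_left _ hz.2 }
  obtain ⟨s, hs⟩ := monotone_stabilizes_iff_noetherian.2
    (inferInstance : IsNoetherian (MvPolynomial (Fin r) k) (MvPolynomial (Fin r) k)) K
  have hK : ∀ z : MvPolynomial (Fin r) k, lin c * z ∈ J → X i ^ (s + 1) * z ∈ J →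
      X i ^ s * z ∈ J := by
    intro z h1 h2
    have h3 : z ∈ K (s + 1) := ⟨h1, h2⟩
    rw [← hs (s + 1) (Nat.le_succ s)] at h3
    exact h3.2
  refine ⟨s, fun z hz => ?_⟩
  by_contra hne
  set y : MvPolynomial (Fin r) k ⧸ J := Ideal.Quotient.mk J (X i ^ s * z) with hy
  have hy0 : y ≠ 0 := fun h => hne (Ideal.Quotient.eq_zero_iff_mem.1 h)
  let N : Submodule (MvPolynomial (Fin r) k) (MvPolynomial (Fin r) k ⧸ J) :=
    Submodule.span (MvPolynomial (Fin r) k) {y}
  have hyN : y ∈ N := Submodule.mem_span_singleton_self y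
  have hNn : Nontrivial N := ⟨⟨⟨y, hyN⟩, 0, fun h => hy0 (congrArg Subtype.val h)⟩⟩
  obtain ⟨P, hP⟩ := associatedPrimes.nonempty (MvPolynomial (Fin r) k) N
  have hPM : P ∈ associatedPrimes (MvPolynomial (Fin r) k) (MvPolynomial (Fin r) k ⧸ J) :=
    associatedPrimes.subset_of_injective (f := N.subtype) N.injective_subtype hP
  obtain ⟨hprime, x, hx⟩ := isAssociatedPrime_iff.1 hP
  have hmem : ∀ g : MvPolynomial (Fin r) k, g ∈ P ↔ g • (x : MvPolynomial (Fin r) k ⧸ J) = 0 := by
    intro g
    rw [hx, Submodule.mem_colon_singleton, Submodule.mem_bot]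
    constructor
    · intro h
      exact congrArg Subtype.val h
    · intro h
      exact Subtype.ext h
  obtain ⟨g, hg⟩ := Submodule.mem_span_singleton.1 x.2
  have hsm : ∀ a b : MvPolynomial (Fin r) k,
      a • (Ideal.Quotient.mk J b : MvPolynomial (Fin r) k ⧸ J) = Ideal.Quotient.mk J (a * b) :=
    fun a b => rfl
  have hxe : (x : MvPolynomial (Fin r) k ⧸ J) = Ideal.Quotient.mk J (g * (X i ^ s * z)) := by
    rw [← hg, hy, hsm]
  have hlin : lin c ∈ P := by
    rw [hmem, hxe, hsm, Ideal.Quotient.eq_zero_iff_mem]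
    have h1 : lin c * (g * (X i ^ s * z)) = g * X i ^ s * (lin c * z) := by ring
    rw [h1]
    exact J.mul_mem_left _ hz
  have hXi : X i ∈ P := hc P hPM hlin i
  rw [hmem, hxe, hsm, Ideal.Quotient.eq_zero_iff_mem] at hXi
  have h2 : X i ^ s * (g * z) ∈ J := by
    refine hK (g * z) ?_ ?_
    · rw [mul_left_comm]
      exact J.mul_mem_left _ hz
    · have h3 : X i ^ (s + 1) * (g * z) = X i * (g * (X i ^ s * z)) := by ring
      rw [h3]
      exact hXi
  have hx0 : (x : MvPolynomial (Fin r) k ⧸ J) = 0 := by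
    rw [hxe, Ideal.Quotient.eq_zero_iff_mem]
    have h4 : g * (X i ^ s * z) = X i ^ s * (g * z) := by ring
    rw [h4]
    exact h2
  apply hprime.ne_top
  rw [Ideal.eq_top_iff_one, hmem, hx0, smul_zero]

end step

theorem pf_STEP : T_STEP.{u} := by
  classical
  intro k _ _ r J hJ
  obtain ⟨c, hc⟩ := exists_lin J
  have hpow := fun i => exists_pow J c hc i
  choose s hs using hpow
  set t : ℕ := ∑ i, s i + 1 with ht
  -- monomials of high degree
  have hmon : ∀ (a : Fin r →₀ ℕ) (b : k) (z : MvPolynomial (Fin r) k), lin c * z ∈ J →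
      t ≤ ∑ i, a i → monomial a b * z ∈ J := by
    intro a b z hz hta
    obtain ⟨i, hi⟩ : ∃ i, s i ≤ a i := by
      by_contra hcon
      push Not at hcon
      have h1 : ∑ i, a i ≤ ∑ i, s i := Finset.sum_le_sum fun i _ => (hcon i).le
      omega
    have h1 : a = (a - Finsupp.single i (s i)) + Finsupp.single i (s i) := by
      rw [tsub_add_cancel_of_le]
      exact Finsupp.single_le_iff.2 hi
    have h2 : monomial a b = monomial (a - Finsupp.single i (s i)) b * X i ^ s i := by
      rw [X_pow_eq_monomial, monomial_mul, mul_one, ← h1]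
    rw [h2, mul_assoc]
    exact J.mul_mem_left _ (hs i z hz)
  -- the ideal of the elements killed by the linear form
  let K : Ideal (MvPolynomial (Fin r) k) :=
    { carrier := {z | lin c * z ∈ J}
      add_mem' := by
        intro a b h1 h2
        rw [Set.mem_ofPred_eq, mul_add]
        exact J.add_mem h1 h2
      zero_mem' := by
        rw [Set.mem_ofPred_eq, mul_zero]
        exact J.zero_mem
      smul_mem' := by
        intro a z h1
        rw [Set.mem_ofPred_eq, smul_eq_mul, mul_left_comm]
        exact J.mul_mem_left _ h1 }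
  obtain ⟨G, hG⟩ : K.FG := (isNoetherianRing_iff_ideal_fg _).1 inferInstance K
  set D : ℕ := G.sup totalDegree with hD
  have hGK : ∀ g ∈ G, lin c * g ∈ J := by
    intro g hg
    have h1 : g ∈ K := by
      rw [← hG]
      exact Submodule.subset_span hg
    exact h1
  have hbase : ∀ g ∈ G, ∀ q : MvPolynomial (Fin r) k, ∃ u : MvPolynomial (Fin r) k,
      u.totalDegree < t + D ∧ q * g - u ∈ J := by
    intro g hg q
    induction q using MvPolynomial.induction_on' with
    | monomial a b =>
      by_cases hta : t ≤ ∑ i, a i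
      · refine ⟨0, ?_, ?_⟩
        · rw [totalDegree_zero]
          omega
        · rw [sub_zero]
          exact hmon a b g (hGK g hg) hta
      · refine ⟨monomial a b * g, ?_, ?_⟩
        · have h1 := totalDegree_mul (monomial a b) g
          have h2 : (monomial a b : MvPolynomial (Fin r) k).totalDegree ≤ ∑ i, a i := by
            refine (totalDegree_monomial_le a b).trans (le_of_eq ?_)
            rw [Finsupp.sum_fintype _ _ fun i => rfl]
            exact Finset.sum_congr rfl fun i _ => rfl
          have h3 : g.totalDegree ≤ D := Finset.le_sup (f := totalDegree) hg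
          omega
        · rw [sub_self]
          exact J.zero_mem
    | add p q hp hq =>
      obtain ⟨u, hu1, hu2⟩ := hp
      obtain ⟨v, hv1, hv2⟩ := hq
      refine ⟨u + v, (totalDegree_add u v).trans_lt (max_lt hu1 hv1), ?_⟩
      have h1 : (p + q) * g - (u + v) = (p * g - u) + (q * g - v) := by ring
      rw [h1]
      exact J.add_mem hu2 hv2
  have hall : ∀ z ∈ K, ∀ q : MvPolynomial (Fin r) k, ∃ u : MvPolynomial (Fin r) k,
      u.totalDegree < t + D ∧ q * z - u ∈ J := by
    intro z hz
    rw [← hG] at hz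
    induction hz using Submodule.span_induction with
    | mem g hg => exact hbase g hg
    | zero =>
      intro q
      refine ⟨0, ?_, ?_⟩
      · rw [totalDegree_zero]
        omega
      · rw [mul_zero, sub_zero]
        exact J.zero_mem
    | add x y _ _ hx hy =>
      intro q
      obtain ⟨u, hu1, hu2⟩ := hx q
      obtain ⟨v, hv1, hv2⟩ := hy q
      refine ⟨u + v, (totalDegree_add u v).trans_lt (max_lt hu1 hv1), ?_⟩
      have h1 : q * (x + y) - (u + v) = (q * x - u) + (q * y - v) := by ring
      rw [h1]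
      exact J.add_mem hu2 hv2
    | smul a x _ hx =>
      intro q
      obtain ⟨u, hu1, hu2⟩ := hx (q * a)
      refine ⟨u, hu1, ?_⟩
      have h1 : q * a • x - u = q * a * x - u := by rw [smul_eq_mul, mul_assoc]
      rw [h1]
      exact hu2
  refine ⟨c, t + D, fun n hn p hp hlp => ?_⟩
  obtain ⟨u, hu1, hu2⟩ := hall p hlp 1
  rw [one_mul] at hu2
  have h1 := hJ _ hu2 n
  rw [map_sub, homogeneousComponent_eq_zero n u (lt_of_lt_of_le hu1 hn), sub_zero,
    homogeneousComponent_of_mem hp, if_pos rfl] at h1
  exact h1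

end Pool.Agent.H3.DB
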